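import Mathlib
import Pool.Agent.R40.FiveSCd

/-!
# MP_aa43e9_co: `k`-regular graphs on `2k+1` vertices contain an induced `C_5` or an induced bull

For every `k ≥ 1`, every `k`-regular graph on `2k+1` vertices has five vertices inducing a
self-complementary graph.
-/

namespace Pool.Agent.Results.MP_aa43e9_co.SelfComplementaryFive

open Finset

/-- A graph is self-complementary if it is isomorphic to its complement. -/
def IsSelfComplementary {W : Type} (H : SimpleGraph W) : Prop := Nonempty (H ≃g Hᶜ)

/-- The bull: vertices `a, b, c, d, e = 0, 1, 2, 3, 4`, edges `ab, bc, ca, ad, be`. -/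
def bull : SimpleGraph (Fin 5) :=
  SimpleGraph.fromEdgeSet {s(0, 1), s(1, 2), s(2, 0), s(0, 3), s(1, 4)}

open Pool.Agent.R40.FiveSC

theorem c5_self : IsSelfComplementary (SimpleGraph.cycleGraph 5) := by
  refine ⟨⟨⟨fun i => 2 * i, fun i => 3 * i, by decide, by decide⟩, ?_⟩⟩
  intro a b
  show (SimpleGraph.cycleGraph 5)ᶜ.Adj (2 * a) (2 * b) ↔ (SimpleGraph.cycleGraph 5).Adj a b
  revert a b
  decide

instance : DecidableRel bull.Adj := fun a b => by
  unfold bull
  rw [SimpleGraph.fromEdgeSet_adj]
  simp only [Set.mem_insert_iff, Set.mem_singleton_iff]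
  infer_instance

theorem bull_self : IsSelfComplementary bull := by
  refine ⟨⟨⟨![3, 4, 2, 1, 0], ![4, 3, 2, 0, 1], by decide, by decide⟩, ?_⟩⟩
  intro a b
  show bullᶜ.Adj (![3, 4, 2, 1, 0] a) (![3, 4, 2, 1, 0] b) ↔ bull.Adj a b
  revert a b
  decide

theorem iso_self {W W' : Type} {H : SimpleGraph W} {H' : SimpleGraph W'} (f : H ≃g H')
    (h : IsSelfComplementary H') : IsSelfComplementary H := by
  obtain ⟨g⟩ := h
  refine ⟨(f.trans g).trans ⟨f.symm.toEquiv, ?_⟩⟩
  intro a b
  simp only [SimpleGraph.compl_adj]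
  have := f.symm.map_adj_iff (v := a) (w := b)
  constructor
  · rintro ⟨h1, h2⟩
    exact ⟨fun e => h1 (by rw [e]), fun h3 => h2 (this.2 h3)⟩
  · rintro ⟨h1, h2⟩
    exact ⟨fun e => h1 (f.symm.toEquiv.injective e), fun h3 => h2 (this.1 h3)⟩

/-- the image of an induced copy -/
theorem of_embedding {V : Type} (G : SimpleGraph V) {H : SimpleGraph (Fin 5)} (f : H ↪g G) :
    ∃ S : Finset V, S.card = 5 ∧ Nonempty (G.induce (S : Set V) ≃g H) := by
  classical
  refine ⟨univ.map f.toEmbedding, by simp, ?_⟩
  have h : ((univ.map f.toEmbedding : Finset V) : Set V) = Set.range f := by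
    ext x; simp
  rw [h]
  exact ⟨(SimpleGraph.Embedding.isoInduceRange f).symm⟩

theorem emb5 {V : Type} (G : SimpleGraph V) (H : SimpleGraph (Fin 5)) (g : Fin 5 → V)
    (h : ∀ i j, i < j → ((H.Adj i j → G.Adj (g i) (g j)) ∧
      (¬ H.Adj i j → (ofG G).B (g i) (g j)))) : Nonempty (H ↪g G) := by
  have hinj : Function.Injective g := by
    intro i j hij
    by_contra hne
    rcases lt_or_gt_of_ne hne with hlt | hlt
    · by_cases hA : H.Adj i j
      · exact ((h i j hlt).1 hA).ne hij
      · exact ((h i j hlt).2 hA).1 hij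
    · by_cases hA : H.Adj j i
      · exact ((h j i hlt).1 hA).ne hij.symm
      · exact ((h j i hlt).2 hA).1 hij.symm
  refine ⟨⟨⟨g, hinj⟩, ?_⟩⟩
  intro i j
  show G.Adj (g i) (g j) ↔ H.Adj i j
  rcases lt_trichotomy i j with hlt | rfl | hlt
  · constructor
    · intro hG
      by_contra hA
      exact ((h i j hlt).2 hA).2 hG
    · exact (h i j hlt).1
  · simp
  · constructor
    · intro hG
      by_contra hA
      exact ((h j i hlt).2 (fun h' => hA h'.symm)).2 hG.symm
    · intro hA
      exact ((h j i hlt).1 hA.symm).symm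

/-- **Main theorem.** For every positive integer `k`, every `k`-regular graph on `2k+1` vertices
has a five-element set of vertices inducing a self-complementary graph, namely a five-cycle or a
bull. -/
theorem result (k : ℕ) (hk : 0 < k) {V : Type} [Fintype V] (G : SimpleGraph V)
    [DecidableRel G.Adj] (hV : Fintype.card V = 2 * k + 1) (hG : G.IsRegularOfDegree k) :
    ∃ S : Finset V, S.card = 5 ∧ IsSelfComplementary (G.induce (S : Set V)) ∧
      (Nonempty (G.induce (S : Set V) ≃g SimpleGraph.cycleGraph 5) ∨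
        Nonempty (G.induce (S : Set V) ≃g bull)) := by
  by_contra hcon
  have hno : ∀ H : SimpleGraph (Fin 5), (H = SimpleGraph.cycleGraph 5 ∨ H = bull) →
      ¬ Nonempty (H ↪g G) := by
    rintro H hH ⟨f⟩
    apply hcon
    obtain ⟨S, hS, ⟨e⟩⟩ := of_embedding G f
    rcases hH with rfl | rfl
    · exact ⟨S, hS, iso_self e c5_self, Or.inl ⟨e⟩⟩
    · exact ⟨S, hS, iso_self e bull_self, Or.inr ⟨e⟩⟩
  refine regular_not hk G hV hG ?_ ?_
  · intro a b c d e h1 h2 h3 h4 h5 h6 h7 h8 h9 h10
    apply hno _ (Or.inl rfl)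
    refine emb5 G _ ![a, b, c, d, e] ?_
    have sB := @(ofG G).sB
    intro i j hij
    fin_cases i <;> fin_cases j <;> first
      | (exfalso; revert hij; decide)
      | exact ⟨fun _ => h1, fun h => (h (by decide)).elim⟩
      | exact ⟨fun _ => h2, fun h => (h (by decide)).elim⟩
      | exact ⟨fun _ => h3, fun h => (h (by decide)).elim⟩
      | exact ⟨fun _ => h4, fun h => (h (by decide)).elim⟩
      | exact ⟨fun _ => (ofG G).sA h5, fun h => (h (by decide)).elim⟩
      | exact ⟨fun h => absurd h (by decide), fun _ => h6⟩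
      | exact ⟨fun h => absurd h (by decide), fun _ => h7⟩
      | exact ⟨fun h => absurd h (by decide), fun _ => h8⟩
      | exact ⟨fun h => absurd h (by decide), fun _ => sB h9⟩
      | exact ⟨fun h => absurd h (by decide), fun _ => sB h10⟩
  · intro a b c d e h1 h2 h3 h4 h5 h6 h7 h8 h9 h10
    apply hno _ (Or.inr rfl)
    refine emb5 G _ ![a, b, c, d, e] ?_
    have sB := @(ofG G).sB
    intro i j hij
    fin_cases i <;> fin_cases j <;> first
      | (exfalso; revert hij; decide)
      | exact ⟨fun _ => h1, fun h => (h (by decide)).elim⟩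
      | exact ⟨fun _ => h2, fun h => (h (by decide)).elim⟩
      | exact ⟨fun _ => (ofG G).sA h3, fun h => (h (by decide)).elim⟩
      | exact ⟨fun _ => h4, fun h => (h (by decide)).elim⟩
      | exact ⟨fun _ => h5, fun h => (h (by decide)).elim⟩
      | exact ⟨fun h => absurd h (by decide), fun _ => h6⟩
      | exact ⟨fun h => absurd h (by decide), fun _ => h7⟩
      | exact ⟨fun h => absurd h (by decide), fun _ => h8⟩
      | exact ⟨fun h => absurd h (by decide), fun _ => h9⟩
      | exact ⟨fun h => absurd h (by decide), fun _ => h10⟩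

end Pool.Agent.Results.MP_aa43e9_co.SelfComplementaryFive
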